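import Pool.Agent.Lib.MP_d4f14f_co.Main

/-!
Coverings of two-coloured point sets by pairwise non-crossing stars `K_{1,3}`: at most
`(3 b - r + 24) / 7` points stay uncovered, for all `b ≤ r ≤ 3 b`.
-/

noncomputable section

open scoped Classical

namespace Pool.Agent.Results.MP_d4f14f_co.SlopeSeventh

open Pool.Agent.MP_d4f14f_co

theorem result (R B : Finset Pt) (hd : Disjoint R B) (hg : GenPos (R ∪ B))
    (h1 : B.card ≤ R.card) (h2 : R.card ≤ 3 * B.card) :
    ∃ T : Finset (Pt × Finset Pt), IsCover R B T ∧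
      7 * (uncovered R B T).card ≤ 3 * B.card - R.card + 24 := by
  obtain ⟨k, ⟨T, hT, hk⟩, hk7⟩ := bound hd hg h1 h2
  have h3 := hT.card_uncovered hd
  exact ⟨T, hT, by omega⟩

end Pool.Agent.Results.MP_d4f14f_co.SlopeSeventh
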